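import Pool.Agent.Helper92.RK.Defs

set_option autoImplicit false
set_option maxHeartbeats 400000

namespace Pool.Agent.Helper12.RK.DT2

open Finset Pool.Agent.Helper92.RK

lemma chi_insert {n : ℕ} (S : Finset (Fin n)) (i : Fin n) (hi : i ∉ S) (x : Fin n → Bool) :
    chi (insert i S) x = (if x i then -1 else 1) * chi S x := by
  unfold chi
  rw [prod_insert hi]

lemma step {n : ℕ} (F : Finset (Tm n)) (ρ : Tm n) (l : Fin n × Bool) (S : Finset (Fin n))
    (hS : l.1 ∉ S) :
    |Mco F (insert l ρ) S| ≤ max |Mco F ρ S| |Mco F ρ (insert l.1 S)| := by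
  classical
  have key : Mco F (insert l ρ) S = (Mco F ρ S + (if l.2 then -1 else 1) * Mco F ρ (insert l.1 S)) / 2 := by
    unfold Mco
    rw [← mul_div_assoc, ← add_div, div_div, mul_comm ((2 : ℝ) ^ n) 2, ← div_div]
    congr 1
    rw [mul_sum, ← sum_add_distrib, eq_div_iff (by norm_num : (2 : ℝ) ≠ 0), sum_mul]
    refine sum_congr rfl fun x _ => ?_
    have hsat : Sat (insert l ρ) x ↔ (x l.1 = l.2 ∧ Sat ρ x) := by
      unfold Sat
      simp only [mem_insert, forall_eq_or_imp]
    rw [chi_insert S l.1 hS x]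
    by_cases hv : val F x
    · by_cases hρ : Sat ρ x
      · by_cases hx : x l.1 = l.2
        · simp only [hsat, hv, hρ, hx, and_self, if_true]
          cases l.2 <;> simp <;> ring
        · have hx' : x l.1 = !l.2 := by
            revert hx; cases x l.1 <;> cases l.2 <;> simp
          have hf : ¬ (val F x ∧ Sat (insert l ρ) x) := fun h => hx (hsat.1 h.2).1
          rw [if_neg hf]
          simp only [hv, hρ, hx', and_self, if_true]
          cases l.2 <;> simp
      · have hf : ¬ (val F x ∧ Sat (insert l ρ) x) := fun h => hρ (hsat.1 h.2).2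
        have hf' : ¬ (val F x ∧ Sat ρ x) := fun h => hρ h.2
        rw [if_neg hf]
        simp only [hf', if_false]
        simp
    · have hf : ¬ (val F x ∧ Sat (insert l ρ) x) := fun h => hv h.1
      have hf' : ¬ (val F x ∧ Sat ρ x) := fun h => hv h.1
      rw [if_neg hf]
      simp only [hf', if_false]
      simp
  rw [key, abs_div, abs_two]
  have h1 : |Mco F ρ S + (if l.2 then -1 else 1) * Mco F ρ (insert l.1 S)| ≤
      |Mco F ρ S| + |Mco F ρ (insert l.1 S)| := by
    refine (abs_add_le _ _).trans ?_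
    rw [abs_mul]
    have : |(if l.2 then (-1 : ℝ) else 1)| = 1 := by cases l.2 <;> simp
    rw [this, one_mul]
  have h2 := le_max_left |Mco F ρ S| |Mco F ρ (insert l.1 S)|
  have h3 := le_max_right |Mco F ρ S| |Mco F ρ (insert l.1 S)|
  linarith

lemma aux {n : ℕ} (F : Finset (Tm n)) (ρ : Tm n) (τ : Tm n) : ∀ S : Finset (Fin n),
    Disjoint τ ρ → Con (ρ ∪ τ) → Disjoint S (vr (ρ ∪ τ)) →
    ∃ S' ⊆ vr τ, |Mco F (ρ ∪ τ) S| ≤ |Mco F ρ (S ∪ S')| := by
  classical
  induction τ using Finset.induction_on with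
  | empty =>
    intro S _ _ _
    exact ⟨∅, by simp, by simp⟩
  | insert l τ hl ih =>
    intro S hd hC hS
    have hlρ : l ∉ ρ := fun h => (disjoint_left.1 hd) (mem_insert_self _ _) h
    have hd' : Disjoint τ ρ := hd.mono_left (subset_insert _ _)
    have hsub : ρ ∪ τ ⊆ ρ ∪ insert l τ := union_subset_union_right (subset_insert _ _)
    have hC' : Con (ρ ∪ τ) := fun a ha b hb h => hC a (hsub ha) b (hsub hb) h
    have hvr : vr (ρ ∪ τ) ⊆ vr (ρ ∪ insert l τ) := image_subset_image hsub
    have hS' : Disjoint S (vr (ρ ∪ τ)) := hS.mono_right hvr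
    have hmem : l ∈ ρ ∪ insert l τ := mem_union_right _ (mem_insert_self _ _)
    have hlS : l.1 ∉ S := fun h => (disjoint_left.1 hS) h (mem_image_of_mem _ hmem)
    have hl' : l.1 ∉ vr (ρ ∪ τ) := by
      intro h
      obtain ⟨a, ha, hal⟩ := mem_image.1 h
      have := hC a (hsub ha) l hmem hal
      subst this
      rcases mem_union.1 ha with h | h
      · exact hlρ h
      · exact hl h
    have hins : ρ ∪ insert l τ = insert l (ρ ∪ τ) := by
      rw [union_insert]
    rw [hins]
    have hst := step F (ρ ∪ τ) l S hlS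
    rcases le_max_iff.1 hst with h | h
    · obtain ⟨S', hs, hle⟩ := ih S hd' hC' hS'
      exact ⟨S', hs.trans (image_subset_image (subset_insert _ _)), h.trans hle⟩
    · obtain ⟨S', hs, hle⟩ := ih (insert l.1 S) hd' hC' (by
        rw [disjoint_insert_left]; exact ⟨hl', hS'⟩)
      refine ⟨insert l.1 S', ?_, ?_⟩
      · intro i hi
        rcases mem_insert.1 hi with h | h
        · rw [h]; exact mem_image_of_mem _ (mem_insert_self _ _)
        · exact (image_subset_image (subset_insert _ _)) (hs h)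
      · have : S ∪ insert l.1 S' = insert l.1 S ∪ S' := by
          ext i; simp only [mem_union, mem_insert]; tauto
        rw [this]
        exact h.trans hle

theorem main : S_DT2 := by
  classical
  intro n F ρ σ S hρσ hC hS
  have hu : ρ ∪ (σ \ ρ) = σ := union_sdiff_of_subset hρσ
  obtain ⟨S', h1, h2⟩ := aux F ρ (σ \ ρ) S sdiff_disjoint (by rw [hu]; exact hC) (by rw [hu]; exact hS)
  rw [hu] at h2
  exact ⟨S', h1, h2⟩

end Pool.Agent.Helper12.RK.DT2
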